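import Pool.Agent.IRR.Main

/-!
# `1 + 2s + 3s² + ⋯ + n s^(n-1)` satisfies the hypotheses of Bouniakowsky's conjecture for every `n ≥ 2`

For every `n ≥ 2` the polynomial `P_n` is irreducible over `ℚ`, and no prime divides all its values
at positive integers.
-/

namespace Pool.Agent.Results.MP_d5bf28_nt.BouniakowskyHypotheses

open Polynomial

theorem map_P (n : ℕ) : (Pool.Agent.IRR.P n).map (Int.castRingHom ℚ) =
    ∑ k ∈ Finset.range n, C ((k : ℚ) + 1) * X ^ k := by
  simp [Pool.Agent.IRR.P, Polynomial.map_sum]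

theorem irred_two : Irreducible (∑ k ∈ Finset.range 2, C ((k : ℚ) + 1) * X ^ k : ℚ[X]) := by
  apply Polynomial.irreducible_of_degree_eq_one
  have : (∑ k ∈ Finset.range 2, C ((k : ℚ) + 1) * X ^ k : ℚ[X]) = C 2 * X + C 1 := by
    rw [Finset.sum_range_succ, Finset.sum_range_one]
    norm_num
    ring
  rw [this]
  exact Polynomial.degree_linear (by norm_num)

theorem result :
    ∀ n : ℕ, 2 ≤ n →
      Irreducible (∑ k ∈ Finset.range n, C ((k : ℚ) + 1) * X ^ k : ℚ[X]) ∧
      ∀ q : ℕ, q.Prime → ∃ s : ℕ, 0 < s ∧ ¬ q ∣ ∑ k ∈ Finset.range n, (k + 1) * s ^ k := by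
  intro n hn
  refine ⟨?_, ?_⟩
  · rcases Nat.lt_or_ge 2 n with h | h
    · rw [← map_P]
      exact Pool.Agent.IRR.irreducible_P h
    · obtain rfl : n = 2 := by omega
      exact irred_two
  · intro q hq
    refine ⟨q, hq.pos, fun h => ?_⟩
    obtain ⟨m, rfl⟩ : ∃ m, n = m + 1 := ⟨n - 1, by omega⟩
    rw [Finset.sum_range_succ'] at h
    simp only [zero_add, pow_zero, mul_one] at h
    have h2 : q ∣ ∑ k ∈ Finset.range m, (k + 1 + 1) * q ^ (k + 1) :=
      Finset.dvd_sum fun k _ => Dvd.dvd.mul_left (dvd_pow_self q (by omega)) _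
    have h3 := (Nat.dvd_add_right h2).1 h
    exact hq.one_lt.ne' (Nat.dvd_one.1 h3)

end Pool.Agent.Results.MP_d5bf28_nt.BouniakowskyHypotheses
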