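import Mathlib
import Pool.Agent.H6.Asymp

/-!
# Prime values of `P_n(s) = 1 + 2s + ⋯ + n s^(n-1)`: the arguments can all be multiples of a huge `Q`
-/

namespace Pool.Agent.Results.MP_d5bf28_nt.PrimeArgumentsMultiples

open Finset Filter Topology

/-- the closed form -/
theorem closed {R : Type*} [CommRing R] (n : ℕ) (s : R) :
    (s - 1) ^ 2 * ∑ k ∈ Finset.range n, ((k : R) + 1) * s ^ k =
      1 - ((n : R) + 1) * s ^ n + n * s ^ (n + 1) := by
  induction n with
  | zero => simp
  | succ n ih =>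
    rw [Finset.sum_range_succ, mul_add, ih]
    push_cast
    ring

theorem two_mul_sum {R : Type*} [CommRing R] (n : ℕ) :
    2 * ∑ k ∈ Finset.range n, ((k : R) + 1) = (n : R) * (n + 1) := by
  induction n with
  | zero => simp
  | succ n ih =>
    rw [Finset.sum_range_succ, mul_add, ih]
    push_cast
    ring

/-- odd prime case -/
theorem dvd_odd {q n s : ℕ} (hq : q.Prime) (hq2 : q ≠ 2) (hqn : q ∣ n) (hq1 : q - 1 ∣ n)
    (hs : ¬ q ∣ s) : q ∣ ∑ k ∈ Finset.range n, (k + 1) * s ^ k := by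
  have := Fact.mk hq
  rw [← CharP.cast_eq_zero_iff (ZMod q) q]
  push_cast
  have hn0 : (n : ZMod q) = 0 := (CharP.cast_eq_zero_iff (ZMod q) q n).2 hqn
  have hs0 : (s : ZMod q) ≠ 0 := fun h => hs ((CharP.cast_eq_zero_iff (ZMod q) q s).1 h)
  by_cases h1 : (s : ZMod q) = 1
  · rw [h1]
    simp only [one_pow, mul_one]
    have h := two_mul_sum (R := ZMod q) n
    rw [hn0, zero_mul] at h
    have h2 : (2 : ZMod q) ≠ 0 := by
      intro h2
      have : ((2 : ℕ) : ZMod q) = 0 := by exact_mod_cast h2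
      rw [CharP.cast_eq_zero_iff (ZMod q) q] at this
      exact hq2 ((Nat.prime_dvd_prime_iff_eq hq Nat.prime_two).1 this)
    rcases mul_eq_zero.1 h with h | h
    · exact absurd h h2
    · exact h
  · have hpow : (s : ZMod q) ^ n = 1 := by
      obtain ⟨c, rfl⟩ := hq1
      rw [pow_mul, ZMod.pow_card_sub_one_eq_one hs0, one_pow]
    have h := closed (R := ZMod q) n (s : ZMod q)
    rw [hpow, hn0] at h
    have h3 : ((s : ZMod q) - 1) ^ 2 ≠ 0 := pow_ne_zero _ (sub_ne_zero.2 h1)
    have h4 : ((s : ZMod q) - 1) ^ 2 * ∑ k ∈ Finset.range n, ((k : ZMod q) + 1) * s ^ k = 0 := by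
      rw [h]; ring
    rcases mul_eq_zero.1 h4 with h | h
    · exact absurd h h3
    · exact h

/-- the prime two -/
theorem dvd_two {n s : ℕ} (hn : 4 ∣ n) (hs : ¬ 2 ∣ s) :
    2 ∣ ∑ k ∈ Finset.range n, (k + 1) * s ^ k := by
  rw [← CharP.cast_eq_zero_iff (ZMod 2) 2]
  push_cast
  have hs1 : (s : ZMod 2) = 1 := by
    have : s % 2 = 1 := by omega
    have h := ZMod.natCast_eq_natCast_iff' s 1 2
    simpa using h.2 (by omega)
  rw [hs1]
  simp only [one_pow, mul_one]
  have h : ∑ k ∈ Finset.range n, (k + 1) = n * (n + 1) / 2 := by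
    have := Finset.sum_range_id_mul_two (n + 1)
    rw [Finset.sum_range_succ'] at this
    simp only [add_zero, Nat.add_sub_cancel] at this
    have h2 : (∑ k ∈ Finset.range n, (k + 1)) * 2 = (n + 1) * n := this
    have h3 : n * (n + 1) = (∑ k ∈ Finset.range n, (k + 1)) * 2 := by rw [h2]; ring
    rw [h3, Nat.mul_div_cancel _ (by norm_num)]
  obtain ⟨m, rfl⟩ := hn
  have h2 : ((∑ k ∈ Finset.range (4 * m), (k + 1) : ℕ) : ZMod 2) = 0 := by
    rw [CharP.cast_eq_zero_iff (ZMod 2) 2, h]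
    have : 4 * m * (4 * m + 1) = 2 * (2 * (m * (4 * m + 1))) := by ring
    rw [this, Nat.mul_div_cancel_left _ (by norm_num)]
    exact Dvd.intro _ rfl
  push_cast at h2
  exact h2

theorem lt_P {n s : ℕ} (hn : 2 ≤ n) (hs : 1 < s) :
    n < ∑ k ∈ Finset.range n, (k + 1) * s ^ k := by
  obtain ⟨m, rfl⟩ : ∃ m, n = m + 1 := ⟨n - 1, by omega⟩
  rw [Finset.sum_range_succ]
  have h1 : 1 < s ^ m := Nat.one_lt_pow (by omega) hs
  have h2 : (m + 1) * 1 < (m + 1) * s ^ m := Nat.mul_lt_mul_of_pos_left h1 (by omega)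
  calc m + 1 = (m + 1) * 1 := by ring
    _ < (m + 1) * s ^ m := h2
    _ ≤ _ := Nat.le_add_left _ _

/-- `primorial Y` divides every `s > 1` with `P_n(s)` prime -/
theorem primorial_dvd {Y n s : ℕ} (hn : 2 ≤ n) (h4 : 4 ∣ n) (hY : ∀ q : ℕ, q.Prime → q ≤ Y → q ∣ n)
    (hY1 : ∀ q : ℕ, q.Prime → q ≠ 2 → q ≤ Y → q - 1 ∣ n) (hs : 1 < s)
    (hP : (∑ k ∈ Finset.range n, (k + 1) * s ^ k).Prime) : primorial Y ∣ s := by
  unfold primorial
  apply Finset.prod_primes_dvd
  · intro q hq
    rw [Finset.mem_filter] at hq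
    exact hq.2.prime
  · intro q hq
    rw [Finset.mem_filter, Finset.mem_range] at hq
    obtain ⟨hqY, hq⟩ := hq
    by_contra hqs
    have hd : q ∣ ∑ k ∈ Finset.range n, (k + 1) * s ^ k := by
      by_cases h2 : q = 2
      · subst h2
        exact dvd_two h4 hqs
      · exact dvd_odd hq h2 (hY q hq (by omega)) (hY1 q hq h2 (by omega)) hqs
    have h1 := (Nat.prime_dvd_prime_iff_eq hq hP).1 hd
    have h2 := Nat.le_of_dvd (by omega) (hY q hq (by omega))
    have h3 := lt_P hn hs
    omega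

/-- the modulus is at least `exp (Y/2)` -/
theorem log_primorial_ge : ∀ᶠ Y : ℕ in atTop, (Y : ℝ) / 2 ≤ Real.log (primorial Y) := by
  have h1 : ∀ᶠ x : ℝ in atTop, ‖Real.log x‖ ≤ 0.01 * ‖x ^ ((1 : ℝ) / 2)‖ :=
    (isLittleO_log_rpow_atTop (by norm_num)).bound (by norm_num)
  have h2 := (tendsto_natCast_atTop_atTop (R := ℝ)).eventually h1
  filter_upwards [h2, eventually_ge_atTop 2] with Y hY hY2
  have hth := Chebyshev.theta_ge Y
  rw [Chebyshev.theta_eq_log_primorial, Nat.floor_natCast] at hth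
  have hY2' : (2 : ℝ) ≤ Y := by exact_mod_cast hY2
  have hlog0 : 0 ≤ Real.log Y := Real.log_nonneg (by linarith)
  have hs0 : 0 ≤ √(Y : ℝ) := Real.sqrt_nonneg _
  have hsq : √(Y : ℝ) * √(Y : ℝ) = Y := Real.mul_self_sqrt (by linarith)
  have hs1 : 1 ≤ √(Y : ℝ) := by
    rw [show (1 : ℝ) = √1 by simp]
    exact Real.sqrt_le_sqrt (by linarith)
  have hb : Real.log Y ≤ 0.01 * √(Y : ℝ) := by
    rw [Real.norm_eq_abs, abs_of_nonneg hlog0, Real.norm_eq_abs,
      ← Real.sqrt_eq_rpow, abs_of_nonneg hs0] at hY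
    exact hY
  have hc : Real.log ((Y : ℝ) + 1) ≤ 2 * Real.log Y := by
    have : Real.log ((Y : ℝ) + 1) ≤ Real.log ((Y : ℝ) ^ 2) := by
      apply Real.log_le_log (by linarith)
      nlinarith
    rw [Real.log_pow] at this
    push_cast at this
    exact this
  have hl2 := Real.log_two_gt_d9
  have h5 : √(Y : ℝ) ≤ Y := by nlinarith
  nlinarith [mul_le_mul_of_nonneg_left hb hs0]

theorem result : ∃ C : ℝ, 0 < C ∧ ∀ N : ℕ, ∃ n : ℕ, N ≤ n ∧ 2 ≤ n ∧ ∃ Q : ℕ, Q ∣ n ∧
    (n : ℝ) ^ (1 - C * (Real.log (Real.log (Real.log n)) / Real.log (Real.log n))) ≤ Q ∧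
    ∀ s : ℕ, 1 < s → (∑ k ∈ Finset.range n, (k + 1) * s ^ k).Prime → Q ∣ s := by
  obtain ⟨C₀, hC₀, Y₀, hY₀⟩ := Pool.Agent.H6.log_MM_asymp
  refine ⟨8 * (C₀ + 1), by positivity, fun N => ?_⟩
  have e1 : ∀ᶠ x : ℝ in atTop, Real.log x ≤ (1 / (C₀ + 2)) * x := by
    have := Real.isLittleO_log_id_atTop.bound (show (0 : ℝ) < 1 / (C₀ + 2) by positivity)
    filter_upwards [this, eventually_ge_atTop 1] with x hx hx1
    simp only [id, Real.norm_eq_abs] at hx
    rw [abs_of_nonneg (Real.log_nonneg hx1), abs_of_nonneg (by linarith)] at hx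
    exact hx
  have e2 : ∀ᶠ Y : ℕ in atTop, Real.log Y ≤ (1 / (C₀ + 2)) * Y :=
    (tendsto_natCast_atTop_atTop (R := ℝ)).eventually e1
  have e3 : ∀ᶠ Y : ℕ in atTop, Real.log (Real.log Y) ≤ (1 / (C₀ + 2)) * Real.log Y :=
    (Real.tendsto_log_atTop.comp (tendsto_natCast_atTop_atTop (R := ℝ))).eventually e1
  have e4 : ∀ᶠ Y : ℕ in atTop, 2 ≤ Real.log (Real.log Y) :=
    ((Real.tendsto_log_atTop.comp (Real.tendsto_log_atTop.comp
      (tendsto_natCast_atTop_atTop (R := ℝ))))).eventually (eventually_ge_atTop 2)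
  have e5 : ∀ᶠ Y : ℕ in atTop, 2 * Real.log (N + 2) ≤ (Y : ℝ) :=
    (tendsto_natCast_atTop_atTop (R := ℝ)).eventually (eventually_ge_atTop _)
  obtain ⟨Y, hY2, hY3, hY4, hY5, hYp, hYY, hY8⟩ := (e2.and (e3.and (e4.and (e5.and
    (log_primorial_ge.and ((eventually_ge_atTop Y₀).and (eventually_ge_atTop 8))))))).exists
  have hM := hY₀ Y hYY
  set T := ⌊Real.log Y⌋₊ + 1 with hT
  have hMp := Pool.Agent.H6.MM_pos T Y
  have hQp := primorial_pos Y
  set M := Pool.Agent.H6.MM T Y with hMdef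
  set Q := primorial Y with hQdef
  have hnp : 0 < 4 * M * Q := by positivity
  have hYr : (8 : ℝ) ≤ Y := by exact_mod_cast hY8
  have hMr : (0 : ℝ) < M := by exact_mod_cast hMp
  have hQr : (0 : ℝ) < Q := by exact_mod_cast hQp
  -- the logarithm of `n`
  have hlogn : Real.log ((4 * M * Q : ℕ) : ℝ) = Real.log 4 + Real.log M + Real.log Q := by
    push_cast
    rw [Real.log_mul (by positivity) (by positivity), Real.log_mul (by norm_num) (by positivity)]
  have hlog4 : Real.log 4 ≤ 2 := by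
    rw [show (4 : ℝ) = 2 ^ 2 by norm_num, Real.log_pow]
    push_cast
    linarith [Real.log_two_lt_d9]
  have hlog4' : 0 ≤ Real.log 4 := Real.log_nonneg (by norm_num)
  have hlM : 0 ≤ Real.log M := Real.log_natCast_nonneg _
  have hlQ : Real.log Q ≤ 2 * Y := by
    have h := Chebyshev.theta_le_log4_mul_x (x := (Y : ℝ)) (by linarith)
    rw [Chebyshev.theta_eq_log_primorial, Nat.floor_natCast] at h
    nlinarith
  have hLY : 0 < Real.log Y := Real.log_pos (by linarith)
  -- the ratio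
  have hratio : Real.log (Real.log Y) / Real.log Y ≤ 1 / (C₀ + 2) := by
    rw [div_le_iff₀ hLY]; exact hY3
  have hratio0 : 0 < Real.log (Real.log Y) / Real.log Y := div_pos (by linarith) hLY
  have hZ : 2 ≤ (Y : ℝ) * (Real.log (Real.log Y) / Real.log Y) := by
    have h1 : Real.log Y ≤ Y := by
      have : (1 / (C₀ + 2)) * (Y : ℝ) ≤ 1 * Y := by
        apply mul_le_mul_of_nonneg_right _ (by linarith)
        rw [div_le_one (by positivity)]; linarith
      linarith
    rw [← mul_div_assoc, le_div_iff₀ hLY]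
    nlinarith
  have hdiff : Real.log ((4 * M * Q : ℕ) : ℝ) - Real.log Q ≤
      (C₀ + 1) * (Y * (Real.log (Real.log Y) / Real.log Y)) := by
    rw [hlogn]
    nlinarith
  have hupM : Real.log M ≤ Y := by
    have h1 : C₀ * (1 / (C₀ + 2)) ≤ 1 := by
      rw [mul_one_div, div_le_one (by positivity)]; linarith
    calc Real.log M ≤ C₀ * (Y * (Real.log (Real.log Y) / Real.log Y)) := hM
      _ ≤ C₀ * (Y * (1 / (C₀ + 2))) := by
        apply mul_le_mul_of_nonneg_left _ hC₀.le
        exact mul_le_mul_of_nonneg_left hratio (by linarith)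
      _ = (C₀ * (1 / (C₀ + 2))) * Y := by ring
      _ ≤ 1 * Y := mul_le_mul_of_nonneg_right h1 (by linarith)
      _ = Y := one_mul _
  have hup : Real.log ((4 * M * Q : ℕ) : ℝ) ≤ 4 * Y := by rw [hlogn]; linarith
  have hlow : (Y : ℝ) / 2 ≤ Real.log ((4 * M * Q : ℕ) : ℝ) := by rw [hlogn]; linarith
  have hn2 : N + 2 ≤ 4 * M * Q := by
    have h1 : Real.log (N + 2) ≤ Real.log ((4 * M * Q : ℕ) : ℝ) := by linarith
    have h2 := (Real.log_le_log_iff (by positivity) (by exact_mod_cast hnp)).1 h1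
    exact_mod_cast h2
  refine ⟨4 * M * Q, by omega, by omega, Q, Dvd.intro_left _ rfl, ?_, ?_⟩
  · set n := 4 * M * Q with hn
    have hnr : (0 : ℝ) < (n : ℝ) := by exact_mod_cast hnp
    rw [← Real.log_le_log_iff (Real.rpow_pos_of_pos hnr _) hQr, Real.log_rpow hnr]
    -- iterated logarithms
    have hln0 : 0 < Real.log n := by linarith
    have hLL_up : Real.log (Real.log n) ≤ 2 * Real.log Y := by
      have h1 : Real.log (Real.log n) ≤ Real.log ((Y : ℝ) ^ 2) := by
        apply Real.log_le_log hln0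
        nlinarith
      rw [Real.log_pow] at h1
      push_cast at h1
      exact h1
    have hhalf : (1 / 2) * Real.log Y ≤ Real.log (Real.log n) := by
      have h1 : Real.log (√(Y : ℝ)) ≤ Real.log (Real.log n) := by
        apply Real.log_le_log (by positivity)
        have hsq : √(Y : ℝ) * √(Y : ℝ) = Y := Real.mul_self_sqrt (by linarith)
        have hs0 : 0 ≤ √(Y : ℝ) := Real.sqrt_nonneg _
        have hs2 : 2 ≤ √(Y : ℝ) := by
          by_contra h
          push Not at h
          nlinarith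
        nlinarith
      rw [Real.log_sqrt (by linarith)] at h1
      linarith
    have hLL0 : 0 < Real.log (Real.log n) := by nlinarith
    have hLLL : (1 / 2) * Real.log (Real.log Y) ≤ Real.log (Real.log (Real.log n)) := by
      have h1 : Real.log ((1 / 2) * Real.log Y) ≤ Real.log (Real.log (Real.log n)) :=
        Real.log_le_log (by positivity) hhalf
      rw [Real.log_mul (by norm_num) hLY.ne'] at h1
      have h2 : Real.log (1 / 2) = - Real.log 2 := by
        rw [one_div, Real.log_inv]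
      rw [h2] at h1
      have := Real.log_two_lt_d9
      linarith
    have hkey : (1 / 8) * (Y * (Real.log (Real.log Y) / Real.log Y)) ≤
        Real.log n * (Real.log (Real.log (Real.log n)) / Real.log (Real.log n)) := by
      have h1 : (1 / 2) * Real.log (Real.log Y) / (2 * Real.log Y) ≤
          Real.log (Real.log (Real.log n)) / Real.log (Real.log n) := by
        apply div_le_div₀ _ hLLL hLL0 hLL_up
        linarith
      calc (1 / 8) * (Y * (Real.log (Real.log Y) / Real.log Y))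
          = (Y / 2) * ((1 / 2) * Real.log (Real.log Y) / (2 * Real.log Y)) := by
            field_simp
            ring
        _ ≤ Real.log n * (Real.log (Real.log (Real.log n)) / Real.log (Real.log n)) := by
            apply mul_le_mul hlow h1 _ hln0.le
            apply div_nonneg _ (by linarith)
            linarith
    have h9 : (C₀ + 1) * (Y * (Real.log (Real.log Y) / Real.log Y)) ≤
        8 * (C₀ + 1) *
          (Real.log n * (Real.log (Real.log (Real.log n)) / Real.log (Real.log n))) := by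
      nlinarith
    nlinarith
  · intro s hs hP
    apply primorial_dvd (Y := Y) (by omega) _ _ _ hs hP
    · exact Dvd.intro (M * Q) (by ring)
    · intro q hq hqY
      have : q ∣ Q := (hq.dvd_primorial_iff).2 hqY
      exact this.mul_left _
    · intro q hq hq2 hqY
      have h := Pool.Agent.H6.dvd_MM T Y q (by omega) (by omega) hq hq2 hqY
      exact (h.mul_left 4).mul_right Q

end Pool.Agent.Results.MP_d5bf28_nt.PrimeArgumentsMultiples
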